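import Pool.Agent.H316R4.Main3

/-!
# Translates of one function blocked into an unconditional FDD of `L_p(ℝ)`, for every `1 < p < ∞`

Definitions used: `H316F.Tr` (translation, file `Pool.Agent.H316R4.Trans`), `H316F.IsFDD`
(file `Pool.Agent.H316R4.Fdd`) and `H316F.IsUncFDD` (file `Pool.Agent.H316R4.Fdd2`).
-/

open MeasureTheory
open scoped ENNReal

namespace Pool.Agent.Results.MP_5d9214_an.UnconditionalFDDAllP

open H316F

/-- For every `1 < p < ∞`, both for real and for complex scalars, there are `f` in `L_p(ℝ)`, a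
sequence `lam` of reals and integers `0 = n 0 < n 1 < ⋯` such that the spans of the blocks
`{f(· - lam i) : n k ≤ i < n (k + 1)}`, `k ≥ 0`, form an unconditional finite-dimensional
decomposition of `L_p(ℝ)`. -/
theorem result (p : ℝ≥0∞) [Fact (1 ≤ p)] (h1p : 1 < p) (hp : p ≠ ∞) :
    (∃ (f : Lp ℝ p (volume : Measure ℝ)) (lam : ℕ → ℝ) (n : ℕ → ℕ), n 0 = 0 ∧ StrictMono n ∧
      IsUncFDD ℝ (fun k => Submodule.span ℝ
        {g | ∃ i, n k ≤ i ∧ i < n (k + 1) ∧ g = Tr ℝ p (lam i) f})) ∧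
    (∃ (f : Lp ℂ p (volume : Measure ℝ)) (lam : ℕ → ℝ) (n : ℕ → ℕ), n 0 = 0 ∧ StrictMono n ∧
      IsUncFDD ℂ (fun k => Submodule.span ℂ
        {g | ∃ i, n k ≤ i ∧ i < n (k + 1) ∧ g = Tr ℂ p (lam i) f})) := by
  obtain ⟨f, lam, n, h0, h1, h2, h3⟩ := main_bothU h1p hp
  exact ⟨⟨f, lam, n, h0, h1, h2⟩, ⟨toC f, lam, n, h0, h1, h3⟩⟩

end Pool.Agent.Results.MP_5d9214_an.UnconditionalFDDAllP
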