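import Pool.Agent.H296R4.Final

/-!
# Translates of one function blocked into an unconditional FDD of `L_p(ℝ)`, `p > 2`

Definitions used: `trans` (`Pool.Agent.H296R4.Inst1`), `IsFDD`, `IsUncondFDD`
(`Pool.Agent.H296R4.Pert`).
-/

open MeasureTheory
open scoped ENNReal

namespace Pool.Agent.Results.MP_5d9214_an.UnconditionalFDDOfTranslates

open Pool.Agent.H296R4

/-- For every `2 < p < ∞` (real or complex scalars) there are a function `f` in `L_p(ℝ)`, a strictly
increasing sequence of positive integers `lam` and integers `0 = n 0 < n 1 < ⋯` such that the spans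
of the blocks `{f(· - lam i) : n k ≤ i < n (k + 1)}` form an unconditional finite-dimensional
decomposition of `L_p(ℝ)`. -/
theorem result (𝕜 : Type) [RCLike 𝕜] (p : ℝ≥0∞) [Fact (1 ≤ p)] (hp : 2 < p) (hp' : p ≠ ∞) :
    ∃ (f : Lp 𝕜 p (volume : Measure ℝ)) (lam : ℕ → ℤ) (n : ℕ → ℕ),
      StrictMono lam ∧ (∀ i, 0 < lam i) ∧ StrictMono n ∧ n 0 = 0 ∧
      IsUncondFDD 𝕜 (fun k => Submodule.span 𝕜
        ((fun i => trans 𝕜 p (lam i : ℝ) f) '' Set.Ico (n k) (n (k + 1)))) :=
  final 𝕜 p hp hp'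

end Pool.Agent.Results.MP_5d9214_an.UnconditionalFDDOfTranslates
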